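import Mathlib

/-! DER: in a field of characteristic zero every transcendental element is moved by a derivation. -/

namespace Pool.Agent.P.MP_33ab4b_ag

open TensorProduct

theorem der_exists (K : Type*) [Field K] [Algebra ℚ K] (x : K) (hx : Transcendental ℚ x) :
    ∃ d : Derivation ℚ K K, d x = 1 := by
  classical
  have h1 : AlgebraicIndepOn ℚ id ({x} : Set K) := algebraicIndependent_unique_type_iff.mpr hx
  obtain ⟨t, hxt, ht⟩ := exists_isTranscendenceBasis_superset h1
  have hxm : x ∈ t := hxt rfl
  let S := MvPolynomial t ℚ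
  have hinj : Function.Injective (MvPolynomial.aeval (R := ℚ) ((↑) : t → K)) :=
    algebraicIndependent_iff_injective_aeval.1 ht.1
  let : Algebra S K := (MvPolynomial.aeval (R := ℚ) ((↑) : t → K)).toRingHom.toAlgebra
  have : IsScalarTower ℚ S K := IsScalarTower.of_algebraMap_eq fun q =>
    ((MvPolynomial.aeval (R := ℚ) ((↑) : t → K)).commutes q).symm
  have : FaithfulSMul S K := (faithfulSMul_iff_algebraMap_injective S K).2 hinj
  let F := FractionRing S
  let : Algebra F K := FractionRing.liftAlgebra S K
  have : IsScalarTower S F K := FractionRing.isScalarTower_liftAlgebra S K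
  have : Algebra.IsAlgebraic S K := by
    have h := ht.isAlgebraic
    refine ⟨fun y => ?_⟩
    have := h.1 y
    exact (IsAlgebraic.ringHom_of_comp_eq (ht.1.aevalEquiv.symm.toRingHom) (RingHom.id K) this
      ht.1.aevalEquiv.symm.injective (by
        ext z
        obtain ⟨p, rfl⟩ := ht.1.aevalEquiv.surjective z
        simp
        rfl))
  have : Algebra.IsAlgebraic F K := Algebra.IsAlgebraic.extendScalars (R := S) (S := F)
    (IsFractionRing.injective S F)
  have : CharZero F := algebraRat.charZero F
  have : Algebra.FormallyEtale F K := Algebra.FormallyEtale.of_isSeparable F K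
  have : Algebra.FormallyEtale S F := Algebra.FormallyEtale.of_isLocalization (nonZeroDivisors S)
  have : Algebra.FormallyEtale S K := Algebra.FormallyEtale.comp S F K
  let e := KaehlerDifferential.tensorKaehlerEquivOfFormallyEtale ℚ S K
  let d0 : Derivation ℚ S K := (Algebra.linearMap S K).compDer (MvPolynomial.pderiv ⟨x, hxm⟩)
  let l : K ⊗[S] Ω[S⁄ℚ] →ₗ[K] K := (d0.liftKaehlerDifferential).liftBaseChange K
  refine ⟨(l.comp e.symm.toLinearMap).compDer (KaehlerDifferential.D ℚ K), ?_⟩
  have hx' : x = algebraMap S K (MvPolynomial.X ⟨x, hxm⟩) := by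
    change x = MvPolynomial.aeval (R := ℚ) ((↑) : t → K) (MvPolynomial.X ⟨x, hxm⟩)
    simp
  change l (e.symm (KaehlerDifferential.D ℚ K x)) = 1
  rw [hx', KaehlerDifferential.tensorKaehlerEquivOfFormallyEtale_symm_D_algebraMap]
  simp [l, d0]
  exact MvPolynomial.pderiv_X_self _

/-- An element killed by all derivations is algebraic over `ℚ`. -/
theorem der_algebraic (K : Type*) [Field K] [Algebra ℚ K] (x : K)
    (h : ∀ d : Derivation ℚ K K, d x = 0) : IsAlgebraic ℚ x := by
  by_contra hx
  obtain ⟨d, hd⟩ := der_exists K x hx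
  rw [h d] at hd
  exact zero_ne_one hd

end Pool.Agent.P.MP_33ab4b_ag
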