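import Mathlib

/-!
Smooth projective toric threefolds, given by their fans, and their integral cohomology rings in the
presentation of Danilov and Jurkiewicz.
-/

set_option autoImplicit false

namespace Pool.Agent.P.MP_33ab4b_ag

open MvPolynomial

/-- A smooth projective fan in three-space with `m` rays: primitive ray generators `v`, the set `F`
of maximal cones (triples of rays that form a lattice basis), which cover three-space, use every ray
and carry a strictly convex integral support function (so that the cones meet along faces and the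
toric variety is a smooth projective threefold). -/
structure SPFan (m : ℕ) where
  v : Fin m → Fin 3 → ℤ
  F : Finset (Finset (Fin m))
  card3 : ∀ s ∈ F, s.card = 3
  unimod : ∀ a b c : Fin m, ({a, b, c} : Finset (Fin m)) ∈ F →
    Matrix.det (Matrix.of ![v a, v b, v c]) = 1 ∨ Matrix.det (Matrix.of ![v a, v b, v c]) = -1
  cover : ∀ x : Fin 3 → ℝ, ∃ s ∈ F, ∃ t : Fin m → ℝ, (∀ a, 0 ≤ t a) ∧ (∀ a, a ∉ s → t a = 0) ∧
    ∀ i, x i = ∑ a, t a * (v a i : ℝ)
  used : ∀ a, ∃ s ∈ F, a ∈ s
  proj : ∃ h : Fin m → ℤ, ∀ s ∈ F, ∃ u : Fin 3 → ℤ,
    (∀ a ∈ s, u ⬝ᵥ v a = h a) ∧ ∀ a, a ∉ s → u ⬝ᵥ v a < h a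

namespace SPFan

variable {m : ℕ} (S : SPFan m)

/-- The ideal generated by the Stanley-Reisner monomials (products over sets of rays that lie in no
cone) and the three linear relations given by the coordinates of the ray generators. -/
noncomputable def ideal : Ideal (MvPolynomial (Fin m) ℤ) :=
  Ideal.span ({P | ∃ t : Finset (Fin m), (∀ s ∈ S.F, ¬ t ⊆ s) ∧ P = ∏ a ∈ t, X a} ∪
    {P | ∃ i : Fin 3, P = ∑ a, C (S.v a i) * X a})

/-- The integral cohomology ring of the toric threefold. -/
abbrev Coh : Type := MvPolynomial (Fin m) ℤ ⧸ S.ideal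

/-- The class of the invariant divisor of the ray `a`. -/
noncomputable def x (a : Fin m) : S.Coh := Ideal.Quotient.mk S.ideal (X a)

/-- The second cohomology group: the additive span of the divisor classes. -/
noncomputable def H2 : AddSubgroup S.Coh := AddSubgroup.closure (Set.range S.x)

/-- The first Chern class. -/
noncomputable def c1 : S.Coh := ∑ a, S.x a

/-- The first Pontryagin class. -/
noncomputable def p1 : S.Coh := ∑ a, S.x a ^ 2

/-- `n` is the Chern number `c1 ^ 3`: the cube of the first Chern class is `n` times the class of a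
point, which is the product of the three divisor classes of a maximal cone. -/
def IsC1Cube (n : ℤ) : Prop := ∃ s ∈ S.F, S.c1 ^ 3 = n • ∏ a ∈ s, S.x a

end SPFan

end Pool.Agent.P.MP_33ab4b_ag
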