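import Mathlib

/-! Endomorphisms that nearly preserve a trilinear form. -/

set_option autoImplicit false
set_option maxSynthPendingDepth 3

namespace Pool.Agent.P.MP_33ab4b_ag

open Polynomial Finset

section Core
variable {K V : Type*} [Field K] [AddCommGroup V] [Module K V] [FiniteDimensional K V]

theorem jc_sq {S : Module.End K V} (hS : S.IsSemisimple) :
    ∃ a : K[X], S * S * aeval S a = S := by
  have hP := hS.minpoly_squarefree
  have h0 : aeval S (minpoly K S) = 0 := minpoly.aeval K S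
  by_cases hX : (X : K[X]) ∣ minpoly K S
  · obtain ⟨Q, hQ⟩ := hX
    have hn : ¬ (X : K[X]) ∣ Q := by
      rintro ⟨R, rfl⟩
      exact Polynomial.not_isUnit_X (hP X ⟨R, by rw [hQ, mul_assoc]⟩)
    obtain ⟨a, b, hab⟩ := (irreducible_X.coprime_iff_not_dvd).2 hn
    refine ⟨a, ?_⟩
    have h1 : (X * X * a + b * minpoly K S : K[X]) = X := by
      rw [hQ]; linear_combination X * hab
    have h2 := congrArg (aeval S) h1
    simpa [h0] using h2
  · obtain ⟨a, b, hab⟩ := (irreducible_X.coprime_iff_not_dvd).2 hX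
    refine ⟨a, ?_⟩
    have h1 : (X * X * a + (X * b) * minpoly K S : K[X]) = X := by
      linear_combination X * hab
    have h2 := congrArg (aeval S) h1
    simpa [h0] using h2

theorem jc_core {S N : Module.End K V} (hS : S.IsSemisimple) (hN : IsNilpotent N)
    (hc : Commute S N) :
    (∀ x, ∃ y, S x = (S + N) (S y)) ∧ (∀ x, (S + N) x = 0 → S x = 0) ∧
    (∀ x, ∃ y, S x = S (S y)) ∧ (∀ x, S (S x) = 0 → S x = 0) := by
  obtain ⟨a, ha⟩ := jc_sq hS
  set g := aeval S a with hg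
  have hm : g ∈ Algebra.adjoin K {S} := Polynomial.aeval_mem_adjoin_singleton K S
  have c1 : Commute S g := Algebra.commute_of_mem_adjoin_singleton_of_commute hm (Commute.refl S)
  have c2 : Commute N g := Algebra.commute_of_mem_adjoin_singleton_of_commute hm hc.symm
  have hu : IsUnit (1 + N * g) := (c2.isNilpotent_mul_right hN).isUnit_one_add
  have hb := (Module.End.isUnit_iff _).1 hu
  have e1 : (S + N) * (S * g) = S * (1 + N * g) := by
    rw [add_mul, mul_add, mul_one, ← mul_assoc, ha, ← mul_assoc, ← mul_assoc, hc.eq]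
  have e2 : (S * g) * (S + N) = (1 + N * g) * S := by
    have h1 : S * g * S = S := by rw [mul_assoc, ← c1.eq, ← mul_assoc, ha]
    have h2 : S * g * N = N * g * S := by
      rw [mul_assoc, ← c2.eq, ← mul_assoc, hc.eq, mul_assoc, c1.eq, mul_assoc]
    rw [mul_add, add_mul, one_mul, h1, h2]
  have e3 : g * (S * S) = S := by
    rw [← (c1.mul_left c1).eq, ha]
  refine ⟨fun x => ?_, fun x hx => ?_, fun x => ⟨g x, ?_⟩, fun x hx => ?_⟩
  · obtain ⟨y, rfl⟩ := hb.2 x
    exact ⟨g y, (LinearMap.congr_fun e1 y).symm⟩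
  · have h1 := LinearMap.congr_fun e2 x
    rw [Module.End.mul_apply, hx, map_zero, Module.End.mul_apply] at h1
    exact hb.1 (by rw [← h1, map_zero])
  · exact (LinearMap.congr_fun ha x).symm
  · have h1 := LinearMap.congr_fun e3 x
    rw [Module.End.mul_apply, Module.End.mul_apply, hx, map_zero] at h1
    exact h1.symm

theorem jc_anti {T : Type*} [AddCommGroup T] [Module K T]
    (r : Module.End K V →ₗ[K] Module.End K T) (h1 : r 1 = 1) (hm : ∀ a b, r (a * b) = r b * r a) :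
    (∀ s : Module.End K V, s.IsSemisimple → (r s).IsSemisimple) ∧
    (∀ n : Module.End K V, IsNilpotent n → IsNilpotent (r n)) := by
  have hp : ∀ (s : Module.End K V) (k : ℕ), r (s ^ k) = r s ^ k := by
    intro s k
    induction k with
    | zero => simpa using h1
    | succ k ih => rw [pow_succ', hm, ih, pow_succ]
  refine ⟨fun s hs => ?_, fun n ⟨k, hk⟩ => ⟨k, by rw [← hp, hk, map_zero]⟩⟩
  have ha : ∀ P : K[X], aeval (r s) P = r (aeval s P) := by
    intro P
    induction P using Polynomial.induction_on' with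
    | add p q hp hq => rw [map_add, map_add, map_add, hp, hq]
    | monomial k c =>
      rw [aeval_monomial, aeval_monomial, ← Algebra.smul_def, ← Algebra.smul_def, map_smul, hp]
  refine Module.End.isSemisimple_of_squarefree_aeval_eq_zero hs.minpoly_squarefree ?_
  rw [ha, minpoly.aeval, map_zero]

end Core

section Tri
variable {K L : Type*} [Field K] [AddCommGroup L] [Module K L]

/-- the infinitesimal action of an endomorphism on a trilinear form -/
def rho (mu : L →ₗ[K] L →ₗ[K] L →ₗ[K] K) (U : L →ₗ[K] L) (x y z : L) : K :=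
  mu (U x) y z + mu x (U y) z + mu x y (U z)

/-- action on the first slot -/
def jcR1 : Module.End K L →ₗ[K] Module.End K (L →ₗ[K] L →ₗ[K] L →ₗ[K] K) where
  toFun U := LinearMap.lcomp K _ U
  map_add' a b := by ext; simp
  map_smul' c a := by ext; simp

/-- action on the second slot -/
def jcR2 : Module.End K L →ₗ[K] Module.End K (L →ₗ[K] L →ₗ[K] L →ₗ[K] K) where
  toFun U := LinearMap.llcomp K _ _ _ (LinearMap.lcomp K _ U)
  map_add' a b := by ext; simp
  map_smul' c a := by ext; simp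

/-- action on the third slot -/
def jcR3 : Module.End K L →ₗ[K] Module.End K (L →ₗ[K] L →ₗ[K] L →ₗ[K] K) where
  toFun U := LinearMap.llcomp K _ _ _ (LinearMap.llcomp K _ _ _ (LinearMap.lcomp K _ U))
  map_add' a b := by ext; simp
  map_smul' c a := by ext; simp

theorem jcR1_apply (U : Module.End K L) (mu : L →ₗ[K] L →ₗ[K] L →ₗ[K] K) (x y z : L) :
    jcR1 U mu x y z = mu (U x) y z := rfl

theorem jcR2_apply (U : Module.End K L) (mu : L →ₗ[K] L →ₗ[K] L →ₗ[K] K) (x y z : L) :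
    jcR2 U mu x y z = mu x (U y) z := rfl

theorem jcR3_apply (U : Module.End K L) (mu : L →ₗ[K] L →ₗ[K] L →ₗ[K] K) (x y z : L) :
    jcR3 U mu x y z = mu x y (U z) := rfl

theorem rho_add (mu : L →ₗ[K] L →ₗ[K] L →ₗ[K] K) (s n : L →ₗ[K] L) (x y z : L) :
    rho mu (s + n) x y z = rho mu s x y z + rho mu n x y z := by
  simp only [rho, LinearMap.add_apply, map_add]
  ring

/-- Jordan-Chevalley decomposition of an endomorphism whose action on the form has square zero -/
theorem jc [CharZero K] [FiniteDimensional K L] (mu : L →ₗ[K] L →ₗ[K] L →ₗ[K] K) (p : L →ₗ[K] K)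
    (U : L →ₗ[K] L)
    (h2 : ∀ x y z, rho mu U (U x) y z + rho mu U x (U y) z + rho mu U x y (U z) = 0)
    (hp : ∀ x, p (U (U x)) = 0) :
    ∃ s n : L →ₗ[K] L, U = s + n ∧ IsNilpotent (n : Module.End K L) ∧ (∀ x y z, rho mu s x y z = 0) ∧
      (∀ x, p (s x) = 0) ∧ (∀ x, ∃ y, s x = U y) ∧ (∀ x, ∃ y, n x = U y) ∧
      (∀ x, U x = 0 → s x = 0 ∧ n x = 0) ∧ (∀ x, ∃ y, s x = s (s y)) := by
  obtain ⟨n, hn, s, hs, hnil, hss, hU⟩ := Module.End.exists_isNilpotent_isSemisimple (f := U)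
  have hU' : U = s + n := by rw [hU, add_comm]
  have hc : Commute s n := by
    have a1 : Commute (U : Module.End K L) n :=
      Algebra.commute_of_mem_adjoin_singleton_of_commute hn (Commute.refl _)
    exact Algebra.commute_of_mem_adjoin_singleton_of_commute hn
      (Algebra.commute_of_mem_adjoin_singleton_of_commute hs (Commute.refl _)).symm
  obtain ⟨k1, k2, k3, -⟩ := jc_core hss hnil hc
  rw [← hU'] at k1 k2
  have b1 := jc_anti (K := K) (V := L) (T := L →ₗ[K] L →ₗ[K] L →ₗ[K] K) jcR1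
    (by ext; rfl) (fun a b => by ext; rfl)
  have b2 := jc_anti (K := K) (V := L) (T := L →ₗ[K] L →ₗ[K] L →ₗ[K] K) jcR2
    (by ext; rfl) (fun a b => by ext; rfl)
  have b3 := jc_anti (K := K) (V := L) (T := L →ₗ[K] L →ₗ[K] L →ₗ[K] K) jcR3
    (by ext; rfl) (fun a b => by ext; rfl)
  have c12 : ∀ a b : Module.End K L, Commute (jcR1 a) (jcR2 b) := fun a b => by ext; rfl
  have c13 : ∀ a b : Module.End K L, Commute (jcR1 a) (jcR3 b) := fun a b => by ext; rfl
  have c23 : ∀ a b : Module.End K L, Commute (jcR2 a) (jcR3 b) := fun a b => by ext; rfl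
  have hx : ∀ x, s (n x) = n (s x) := fun x => LinearMap.congr_fun hc.eq x
  have hS : (jcR1 s + jcR2 s + jcR3 s).IsSemisimple :=
    Module.End.IsSemisimple.add_of_commute ((c13 s s).add_left (c23 s s))
      (Module.End.IsSemisimple.add_of_commute (c12 s s) (b1.1 s hss) (b2.1 s hss)) (b3.1 s hss)
  have hN : IsNilpotent (jcR1 n + jcR2 n + jcR3 n) :=
    ((c13 n n).add_left (c23 n n)).isNilpotent_add
      ((c12 n n).isNilpotent_add (b1.2 n hnil) (b2.2 n hnil)) (b3.2 n hnil)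
  have hC : Commute (jcR1 s + jcR2 s + jcR3 s) (jcR1 n + jcR2 n + jcR3 n) := by
    ext m x y z
    simp only [Module.End.mul_apply, LinearMap.add_apply, map_add, jcR1_apply, jcR2_apply,
      jcR3_apply, hx]
    ring
  obtain ⟨-, m2, -, m4⟩ := jc_core hS hN hC
  set S := jcR1 s + jcR2 s + jcR3 s with hSd
  set N := jcR1 n + jcR2 n + jcR3 n with hNd
  have hSN : ∀ (m : L →ₗ[K] L →ₗ[K] L →ₗ[K] K) x y z, (S + N) m x y z = rho m U x y z := by
    intro m x y z
    rw [hU', rho_add]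
    rfl
  have q1 : (S + N) ((S + N) mu) = 0 := by
    ext x y z
    rw [hSN]
    simp only [rho, hSN] at h2 ⊢
    exact h2 x y z
  have q2 : (S + N) (S mu) = 0 := by
    have := LinearMap.congr_fun ((Commute.refl S).add_left hC.symm).eq mu
    rw [Module.End.mul_apply, Module.End.mul_apply, m2 _ q1] at this
    exact this
  have q3 : S mu = 0 := m4 _ (m2 _ q2)
  have i1 : ∀ x, ∃ y, s x = U y := fun x => (k1 x).imp' (fun y => s y) fun y h => h
  refine ⟨s, n, hU', hnil, fun x y z => ?_, fun x => ?_, i1, fun x => ?_, fun x h => ?_, k3⟩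
  · exact LinearMap.congr_fun (LinearMap.congr_fun (LinearMap.congr_fun q3 x) y) z
  · obtain ⟨y, hy⟩ := k1 x
    obtain ⟨z, hz⟩ := i1 y
    rw [hy, hz, hp]
  · obtain ⟨y, hy⟩ := i1 x
    refine ⟨x - y, ?_⟩
    rw [map_sub, ← hy, hU', LinearMap.add_apply, add_sub_cancel_left]
  · have h1 := k2 x h
    refine ⟨h1, ?_⟩
    rw [hU', LinearMap.add_apply, h1, zero_add] at h
    exact h

theorem bin_sum (A : ℕ → ℕ → ℕ → K) (m : ℕ)
    (h : ∀ a b c, a + b + c + 1 = m → A (a + 1) b c + A a (b + 1) c + A a b (c + 1) = 0) :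
    ∀ a b c, a + b + c = m →
      A a b c = (-1) ^ a * ∑ i ∈ range (a + 1), (a.choose i : K) * A 0 (b + i) (c + (a - i)) := by
  intro a
  induction a with
  | zero => intro b c _; simp
  | succ a ih =>
    intro b c hm
    have h1 := h a b c (by omega)
    have h2 := ih (b + 1) c (by omega)
    have h3 := ih b (c + 1) (by omega)
    have h4 := Finset.sum_choose_succ_mul (R := K) (fun i j => A 0 (b + i) (c + j)) a
    have e1 : ∑ i ∈ range (a + 1), (a.choose i : K) * A 0 (b + i) (c + (a + 1 - i))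
        = ∑ i ∈ range (a + 1), (a.choose i : K) * A 0 (b + i) (c + 1 + (a - i)) := by
      refine sum_congr rfl fun i hi => ?_
      have := mem_range.1 hi
      rw [show c + (a + 1 - i) = c + 1 + (a - i) by omega]
    have e2 : ∑ i ∈ range (a + 1), (a.choose i : K) * A 0 (b + (i + 1)) (c + (a - i))
        = ∑ i ∈ range (a + 1), (a.choose i : K) * A 0 (b + 1 + i) (c + (a - i)) := by
      refine sum_congr rfl fun i _ => ?_
      rw [show b + (i + 1) = b + 1 + i by omega]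
    rw [e1, e2] at h4
    rw [show a + 1 + 1 = a + 2 from rfl, h4, pow_succ]
    linear_combination h1 - h2 - h3

/-- the binomial lemma -/
theorem bin [CharZero K] (A : ℕ → ℕ → ℕ → K) (k : ℕ)
    (h : ∀ a b c, a + b + c + 1 = 2 * k → A (a + 1) b c + A a (b + 1) c + A a b (c + 1) = 0)
    (h0 : A (2 * k) 0 0 = 0) (h1 : ∀ i j, i + j = 2 * k → i ≠ k → A 0 i j = 0) : A 0 k k = 0 := by
  have h2 := bin_sum A (2 * k) h (2 * k) 0 0 (by omega)
  rw [h0, sum_eq_single k] at h2
  · have h3 : ((2 * k).choose k : K) ≠ 0 := Nat.cast_ne_zero.2 (Nat.choose_pos (by omega)).ne'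
    have h4 : ((-1 : K)) ^ (2 * k) ≠ 0 := pow_ne_zero _ (by simp)
    rw [zero_add, zero_add, show 2 * k - k = k by omega] at h2
    exact (mul_eq_zero.1 ((mul_eq_zero.1 h2.symm).resolve_left h4)).resolve_left h3
  · intro i hi hik
    have := mem_range.1 hi
    rw [h1 _ _ (by omega) (by omega), mul_zero]
  · intro hk
    exact absurd (mem_range.2 (by omega)) hk

theorem jc_top (n : Module.End K L) (hn : IsNilpotent n) (P : L → Prop) (h0 : P 0) (x : L)
    (j : ℕ) (hj : ¬ P ((n ^ j) x)) :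
    ∃ k, j ≤ k ∧ ¬ P ((n ^ k) x) ∧ P ((n ^ (k + 1)) x) := by
  classical
  obtain ⟨N, hN⟩ := hn
  have hex : ∃ i, P ((n ^ (j + i)) x) := ⟨N, by rw [pow_add, hN, mul_zero]; exact h0⟩
  have h1 := Nat.find_spec hex
  obtain ⟨i, hi⟩ : ∃ i, Nat.find hex = i + 1 := by
    refine Nat.exists_eq_succ_of_ne_zero fun h => hj ?_
    rw [h] at h1
    exact h1
  refine ⟨j + i, by omega, Nat.find_min hex (by omega), ?_⟩
  rw [hi] at h1
  exact h1

/-- symmetric trilinear forms -/
def Sym3 (mu : L →ₗ[K] L →ₗ[K] L →ₗ[K] K) : Prop :=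
  (∀ x y z, mu x y z = mu y x z) ∧ ∀ x y z, mu x y z = mu x z y

theorem rho_swap {mu : L →ₗ[K] L →ₗ[K] L →ₗ[K] K} (hs : Sym3 mu) (U : L →ₗ[K] L) (x y z : L) :
    rho mu U x y z = rho mu U y x z ∧ rho mu U x y z = rho mu U x z y := by
  unfold rho
  constructor
  · rw [hs.1 (U x) y z, hs.1 x (U y) z, hs.1 x y (U z)]; ring
  · rw [hs.2 (U x) y z, hs.2 x (U y) z, hs.2 x y (U z)]; ring

theorem rho_any {mu : L →ₗ[K] L →ₗ[K] L →ₗ[K] K} (hs : Sym3 mu) {U : L →ₗ[K] L} {W : Set L}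
    (hr : ∀ x y, ∀ w ∈ W, rho mu U x y w = 0) {x y z : L} (h : x ∈ W ∨ y ∈ W ∨ z ∈ W) :
    rho mu U x y z = 0 := by
  rcases h with h | h | h
  · rw [(rho_swap hs U x y z).1, (rho_swap hs U y x z).2]; exact hr _ _ _ h
  · rw [(rho_swap hs U x y z).2]; exact hr _ _ _ h
  · exact hr _ _ _ h

theorem jc_pow_mem {n : Module.End K L} {W : Set L} (hW : ∀ x, n x ∈ W) {a : ℕ} (ha : a ≠ 0)
    (x : L) : (n ^ a) x ∈ W := by
  obtain ⟨b, rfl⟩ := Nat.exists_eq_succ_of_ne_zero ha
  rw [pow_succ']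
  exact hW _

theorem jc_bin [CharZero K] {mu : L →ₗ[K] L →ₗ[K] L →ₗ[K] K} (hs : Sym3 mu) {n : Module.End K L}
    {W : Set L} (hW : ∀ x, n x ∈ W) (hr : ∀ x y, ∀ w ∈ W, rho mu n x y w = 0) (H x : L) (k : ℕ)
    (hk : 1 ≤ k) (h0 : mu ((n ^ (2 * k)) H) x x = 0)
    (h1 : ∀ i j, i + j = 2 * k → k < i → mu H ((n ^ i) x) ((n ^ j) x) = 0) :
    mu H ((n ^ k) x) ((n ^ k) x) = 0 := by
  refine bin (fun a b c => mu ((n ^ a) H) ((n ^ b) x) ((n ^ c) x)) k (fun a b c h => ?_) h0
    (fun i j h hi => ?_)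
  · have h2 : rho mu n ((n ^ a) H) ((n ^ b) x) ((n ^ c) x) = 0 := by
      refine rho_any hs hr ?_
      by_cases ha : a = 0
      · by_cases hb : b = 0
        · exact Or.inr (Or.inr (jc_pow_mem hW (by omega) _))
        · exact Or.inr (Or.inl (jc_pow_mem hW hb _))
      · exact Or.inl (jc_pow_mem hW ha _)
    simpa only [rho, pow_succ', Module.End.mul_apply] using h2
  · rcases lt_or_gt_of_ne hi with h2 | h2
    · have := h1 j i (by omega) (by omega)
      rw [hs.2] at this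
      exact this
    · exact h1 i j h h2

theorem jc_pow_zero {n : Module.End K L} {x : L} {a b : ℕ} (h : (n ^ a) x = 0) (hab : a ≤ b) :
    (n ^ b) x = 0 := by
  obtain ⟨c, rfl⟩ := Nat.exists_eq_add_of_le' hab
  rw [pow_add, Module.End.mul_apply, h, map_zero]

/-- a vertical endomorphism preserves the form -/
theorem vert [CharZero K] [FiniteDimensional K L] {mu : L →ₗ[K] L →ₗ[K] L →ₗ[K] K} (hs : Sym3 mu)
    (H : L) (W : Set L) (U : L →ₗ[K] L) (hU : ∀ x, U x ∈ W)
    (hr : ∀ x y, ∀ w ∈ W, rho mu U x y w = 0) (hd : ∀ w ∈ W, mu H w w = 0 → w = 0) :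
    (∀ x y z, rho mu U x y z = 0) ∧ ∀ x, ∃ y, U x = U (U y) := by
  obtain ⟨s, n, hU', hnil, h1, -, -, h4, -, h6⟩ := jc mu 0 U (fun x y z => by
    rw [rho_any hs hr (Or.inl (hU x)), rho_any hs hr (Or.inr (Or.inl (hU y))), hr _ _ _ (hU z)]
    ring) (fun _ => rfl)
  have hW : ∀ x, n x ∈ W := fun x => by
    obtain ⟨y, hy⟩ := h4 x
    rw [hy]; exact hU y
  have hrn : ∀ x y, ∀ w ∈ W, rho mu n x y w = 0 := fun x y w hw => by
    have := hr x y w hw
    rwa [hU', rho_add, h1, zero_add] at this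
  have key : ∀ x, (∀ k, 1 ≤ k → ((n : Module.End K L) ^ (k + 1)) x = 0 →
      ((n : Module.End K L) ^ (2 * k)) H = 0) → n x = 0 := by
    intro x hx
    by_contra hne
    obtain ⟨k, hk, k1, k2⟩ := jc_top n hnil (fun v => v = 0) rfl x 1 (by simpa using hne)
    refine k1 (hd _ (jc_pow_mem hW (by omega) _) (jc_bin hs hW hrn H x k hk ?_ fun i j _ hi => ?_))
    · rw [hx k hk k2]; simp
    · rw [jc_pow_zero k2 (show k + 1 ≤ i by omega)]; simp
  have hH : n H = 0 := key H fun k hk h => jc_pow_zero h (by omega)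
  have hn : n = 0 := LinearMap.ext fun x => key x fun k hk _ =>
    jc_pow_zero (a := 1) (by simpa using hH) (by omega)
  rw [hn, add_zero] at hU'
  rw [hU']
  exact ⟨h1, h6⟩

/-- nilpotent endomorphisms when the form is definite modulo one class -/
theorem nil2 [CharZero K] {mu : L →ₗ[K] L →ₗ[K] L →ₗ[K] K} (hs : Sym3 mu) (H f : L) (W : Set L)
    (n : L →ₗ[K] L) (hnil : IsNilpotent (n : Module.End K L)) (hW : ∀ x, n x ∈ W) (hf : n f = 0)
    (hfW : ∀ w ∈ W, ∀ y, mu f w y = 0) (hr : ∀ x y, ∀ w ∈ W, rho mu n x y w = 0)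
    (hd : ∀ w ∈ W, mu H w w = 0 → ∃ c : K, w = c • f) :
    (∀ w ∈ W, ∃ c : K, n w = c • f) ∧ ∀ y, ∀ w ∈ W, ∀ w' ∈ W, mu (n y) w w' = 0 := by
  have up : ∀ (x : L) (a b : ℕ), (∃ c : K, ((n : Module.End K L) ^ a) x = c • f) → a ≤ b →
      ∃ c : K, ((n : Module.End K L) ^ b) x = c • f := by
    intro x a b ⟨c, hc⟩ hab
    rcases hab.eq_or_lt with rfl | h
    · exact ⟨c, hc⟩
    · refine ⟨0, ?_⟩
      rw [zero_smul]
      refine jc_pow_zero (a := a + 1) ?_ h
      rw [pow_succ', Module.End.mul_apply, hc, map_smul, hf, smul_zero]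
  have hH : ∃ c : K, ((n : Module.End K L) ^ 2) H = c • f := by
    by_contra hne
    obtain ⟨k, hk, k1, c, k2⟩ := jc_top n hnil (fun v => ∃ c : K, v = c • f) ⟨0, by simp⟩ H 2 hne
    have k3 : ((n : Module.End K L) ^ (k + 2)) H = 0 := by
      rw [pow_succ', Module.End.mul_apply, k2, map_smul, hf, smul_zero]
    refine k1 (hd _ (jc_pow_mem hW (by omega) _)
      (jc_bin hs hW hr H H k (by omega) ?_ fun i j hij hi => ?_))
    · rw [jc_pow_zero k3 (by omega)]; simp
    · by_cases h2 : i = k + 1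
      · rw [h2, k2, map_smul, LinearMap.smul_apply, hs.1, hs.2,
          hfW _ (jc_pow_mem hW (by omega) _), smul_zero]
      · rw [jc_pow_zero k3 (show k + 2 ≤ i by omega)]; simp
  have h1 : ∀ w ∈ W, ∃ c : K, n w = c • f := by
    intro x hx
    by_contra hne
    obtain ⟨k, hk, k1, k2⟩ := jc_top n hnil (fun v => ∃ c : K, v = c • f) ⟨0, by simp⟩ x 1
      (by simpa using hne)
    refine k1 (hd _ (jc_pow_mem hW (by omega) _)
      (jc_bin hs hW hr H x k hk ?_ fun i j hij hi => ?_))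
    · obtain ⟨c, hc⟩ := up H 2 (2 * k) hH (by omega)
      rw [hc, map_smul, LinearMap.smul_apply, LinearMap.smul_apply, hfW _ hx, smul_zero]
    · obtain ⟨c, hc⟩ := up x (k + 1) i k2 hi
      have hj : ((n : Module.End K L) ^ j) x ∈ W := by
        by_cases hj : j = 0
        · rw [hj]; exact hx
        · exact jc_pow_mem hW hj _
      rw [hc, map_smul, LinearMap.smul_apply, hs.1, hs.2, hfW _ hj, smul_zero]
  refine ⟨h1, fun y w hw w' hw' => ?_⟩
  have h2 := hr y w w' hw'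
  obtain ⟨c, hc⟩ := h1 w hw
  obtain ⟨c', hc'⟩ := h1 w' hw'
  have a1 : mu y f w' = 0 := by rw [hs.1, hs.2, hfW _ hw']
  have a2 : mu y w f = 0 := by rw [hs.2, hs.1, hs.2, hfW _ hw]
  simpa [rho, hc, hc', a1, a2] using h2

/-- vertical endomorphisms when the form is definite modulo one class -/
theorem vert2 [CharZero K] [FiniteDimensional K L] {mu : L →ₗ[K] L →ₗ[K] L →ₗ[K] K} (hs : Sym3 mu)
    (p : L →ₗ[K] K) (H f : L) (W : Set L) (U : L →ₗ[K] L) (hU : ∀ x, U x ∈ W) (hf : U f = 0)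
    (hfW : ∀ w ∈ W, ∀ y, mu f w y = 0) (hr : ∀ x y, ∀ w ∈ W, rho mu U x y w = 0)
    (hp : ∀ w ∈ W, p (U w) = 0) (hd : ∀ w ∈ W, mu H w w = 0 → ∃ c : K, w = c • f) :
    ∃ s n : L →ₗ[K] L, U = s + n ∧ (∀ x y z, rho mu s x y z = 0) ∧ (∀ x, p (s x) = 0) ∧
      (∀ x, s x ∈ W) ∧ (∀ x, n x ∈ W) ∧ s f = 0 ∧ n f = 0 ∧
      (∀ x y, ∀ w ∈ W, rho mu n x y w = 0) ∧ (∀ w ∈ W, ∃ c : K, n w = c • f) ∧
      ∀ y, ∀ w ∈ W, ∀ w' ∈ W, mu (n y) w w' = 0 := by
  obtain ⟨s, n, hU', hnil, h1, h2, h3, h4, h5, -⟩ := jc mu p U (fun x y z => by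
    rw [rho_any hs hr (Or.inl (hU x)), rho_any hs hr (Or.inr (Or.inl (hU y))), hr _ _ _ (hU z)]
    ring) (fun x => hp _ (hU x))
  have hW : ∀ x, n x ∈ W := fun x => by
    obtain ⟨y, hy⟩ := h4 x
    rw [hy]; exact hU y
  have hWs : ∀ x, s x ∈ W := fun x => by
    obtain ⟨y, hy⟩ := h3 x
    rw [hy]; exact hU y
  have hrn : ∀ x y, ∀ w ∈ W, rho mu n x y w = 0 := fun x y w hw => by
    have := hr x y w hw
    rwa [hU', rho_add, h1, zero_add] at this
  obtain ⟨a1, a2⟩ := nil2 hs H f W n hnil hW (h5 f hf).2 hfW hrn hd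
  exact ⟨s, n, hU', h1, h2, hWs, hW, (h5 f hf).1, (h5 f hf).2, hrn, a1, a2⟩

end Tri

end Pool.Agent.P.MP_33ab4b_ag
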