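import Pool.Agent.P.MP_33ab4b_ag.RhoA

/-! The algebraic core of the case of three straight half planes. -/

set_option autoImplicit false

namespace Pool.Agent.P.MP_33ab4b_ag

open Finset

variable {K : Type*} [Field K] [LinearOrder K] [IsStrictOrderedRing K]
  {L : Type*} [AddCommGroup L] [Module K L] {A : Type*} [Fintype A] [DecidableEq A]

/-- the endomorphism with a given matrix -/
noncomputable def toL (b : Module.Basis A K L) (Y : A → A → K) : L →ₗ[K] L :=
  b.constr K fun c => ∑ x, Y x c • b x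

/-- the action of a matrix on the form, in coordinates -/
noncomputable def RR (mu : L →ₗ[K] L →ₗ[K] L →ₗ[K] K) (b : Module.Basis A K L) (Y : A → A → K) (a c e : A) : K :=
  ∑ x, (Y x a * mu (b x) (b c) (b e) + Y x c * mu (b a) (b x) (b e) + Y x e * mu (b a) (b c) (b x))

omit [LinearOrder K] [IsStrictOrderedRing K] [DecidableEq A] in
theorem toL_b (b : Module.Basis A K L) (Y : A → A → K) (c : A) :
    toL b Y (b c) = ∑ x, Y x c • b x :=
  b.constr_basis K _ c

omit [LinearOrder K] [IsStrictOrderedRing K] [DecidableEq A] in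
theorem rho_toL (mu : L →ₗ[K] L →ₗ[K] L →ₗ[K] K) (b : Module.Basis A K L) (Y : A → A → K)
    (a c e : A) : rho mu (toL b Y) (b a) (b c) (b e) = RR mu b Y a c e := by
  simp [rho, RR, toL_b, sum_add_distrib]

omit [LinearOrder K] [IsStrictOrderedRing K] [DecidableEq A] in
theorem toL_repr (b : Module.Basis A K L) (E : L →ₗ[K] L) :
    toL b (fun x c => b.repr (E (b c)) x) = E :=
  b.ext fun c => by rw [toL_b, b.sum_repr]

omit [LinearOrder K] [IsStrictOrderedRing K] in
theorem repr_toL (b : Module.Basis A K L) (Y : A → A → K) {x : A} (h : ∀ c, Y x c = 0) (v : L) :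
    b.repr (toL b Y v) x = 0 := by
  have : (b.coord x) ∘ₗ toL b Y = 0 := b.ext fun c => by
    simp [toL_b, Finsupp.single_apply, h]
  exact LinearMap.congr_fun this v

omit [LinearOrder K] [IsStrictOrderedRing K] [DecidableEq A] in
theorem rho_lin_zero (b : Module.Basis A K L) (In : A → Prop) (q : L →ₗ[K] K)
    (hq : ∀ i, In i → q (b i) = 0) {w : L} (hw : ∀ a, ¬ In a → b.repr w a = 0) : q w = 0 := by
  rw [← b.sum_repr w, map_sum]
  refine sum_eq_zero fun a _ => ?_
  by_cases h : In a
  · rw [map_smul, hq a h, smul_zero]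
  · rw [hw a h, zero_smul, map_zero]

/-- the action on the form as a trilinear form -/
def rhoL (mu : L →ₗ[K] L →ₗ[K] L →ₗ[K] K) (U : L →ₗ[K] L) : L →ₗ[K] L →ₗ[K] L →ₗ[K] K :=
  jcR1 U mu + jcR2 U mu + jcR3 U mu

omit [LinearOrder K] [IsStrictOrderedRing K] in
theorem rhoL_apply (mu : L →ₗ[K] L →ₗ[K] L →ₗ[K] K) (U : L →ₗ[K] L) (x y z : L) :
    rhoL mu U x y z = rho mu U x y z := rfl

/-- the shape of the intersection form in the adapted basis -/
structure R1 (mu : L →ₗ[K] L →ₗ[K] L →ₗ[K] K) (b : Module.Basis A K L) (In : A → Prop) (N S : A)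
    (t : K) (κ : ℚ) (m0 m1 : A → A → A → ℚ) (H η : L) : Prop where
  sym : Sym3 mu
  ns : N ≠ S
  nI : ¬ In N
  sI : ¬ In S
  inf : ∀ n : ℕ, (n : K) < |t|
  k0 : κ ≠ 0
  val : ∀ a c e, mu (b a) (b c) (b e) = m0 a c e + t * m1 a c e
    + t * t * (if a = c ∧ c = e ∧ (a = N ∨ a = S) then (κ : K) else 0)
  supp : ∀ a c e, m1 a c e ≠ 0 → (¬ In a ∧ ¬ In c ∧ ¬ In e ∧ a ≠ N ∧ c ≠ N ∧ e ≠ N) ∧
    ((a = c ∧ c = e) ∨ (a = S ∧ c = S) ∨ (a = S ∧ e = S) ∨ (c = S ∧ e = S))
  fer : ∀ u, ¬ In u → u ≠ N → u ≠ S → m1 u u u ≠ 0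
  eta0 : ∀ y i, In i → mu η y (b i) = 0
  eta1 : ∀ a, ¬ In a → b.repr η a ≠ 0
  rad : ∀ w, (∀ a, ¬ In a → b.repr w a = 0) →
    (∀ i j, In i → In j → mu w (b i) (b j) = 0) → w = 0
  dfn : ∀ w, (∀ a, ¬ In a → b.repr w a = 0) → mu H w w = 0 → w = 0

namespace R1

variable {mu : L →ₗ[K] L →ₗ[K] L →ₗ[K] K} {b : Module.Basis A K L} {In : A → Prop} {N S : A}
  {t : K} {κ : ℚ} {m0 m1 : A → A → A → ℚ} {H η : L} (h : R1 mu b In N S t κ m0 m1 H η)
include h

theorem ker (Y : A → A → K) (hY : ∀ x c, ¬ In x → Y x c = 0)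
    (hoff : ∀ a c i, In i → (a ≠ c ∨ In a) → RR mu b Y a c i = 0) :
    (∀ a c e, RR mu b Y a c e = 0) ∧
      ∀ q : L →ₗ[K] K, (∀ i, In i → q (toL b Y (b i)) = 0) → ∀ x, q (toL b Y x) = 0 := by
  haveI : FiniteDimensional K L := Module.Finite.of_basis b
  set U := toL b Y with hU
  have hW : ∀ v a, ¬ In a → b.repr (U v) a = 0 := fun v a ha => repr_toL b Y (fun c => hY a c ha) v
  have e0 : ∀ y w, (∀ a, ¬ In a → b.repr w a = 0) → mu η y w = 0 := fun y w hw =>
    rho_lin_zero b In (mu η y) (fun i hi => h.eta0 y i hi) hw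
  have ex : ∀ c i, rho mu U η (b c) (b i) = ∑ a, b.repr η a * RR mu b Y a c i := fun c i => by
    rw [← rhoL_apply]
    conv_lhs => rw [← b.sum_repr η]
    simp only [map_sum, map_smul, LinearMap.sum_apply, LinearMap.smul_apply, smul_eq_mul,
      rhoL_apply, hU, rho_toL]
  have e1 : U η = 0 := by
    refine h.rad _ (hW η) fun j i hj hi => ?_
    have h1 : rho mu U η (b j) (b i) = 0 := by
      rw [ex]
      refine sum_eq_zero fun a _ => ?_
      rw [hoff a j i hi (by by_cases ha : a = j <;> simp [ha, hj]), mul_zero]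
    rw [rho, h.eta0 _ i hi, e0 _ _ (hW _)] at h1
    simpa using h1
  have e2 : ∀ a c i, In i → RR mu b Y a c i = 0 := by
    intro a c i hi
    by_cases hac : a ≠ c ∨ In a
    · exact hoff a c i hi hac
    · obtain ⟨rfl, ha⟩ : a = c ∧ ¬ In a := by tauto
      have h1 : rho mu U η (b a) (b i) = 0 := by
        rw [rho, e1, h.eta0 _ i hi, e0 _ _ (hW _)]; simp
      rw [ex, sum_eq_single a (fun x _ hx => by rw [hoff x a i hi (Or.inl hx), mul_zero])
        (by simp)] at h1
      exact (mul_eq_zero.1 h1).resolve_left (h.eta1 a ha)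
  have e3 : ∀ x y, ∀ w ∈ {w : L | ∀ a, ¬ In a → b.repr w a = 0}, rho mu U x y w = 0 := by
    intro x y w hw
    rw [← rhoL_apply]
    refine rho_lin_zero b In (rhoL mu U x y) (fun i hi => ?_) hw
    rw [← b.sum_repr x, ← b.sum_repr y]
    simp only [map_sum, map_smul, LinearMap.sum_apply, LinearMap.smul_apply, smul_eq_mul,
      rhoL_apply, hU, rho_toL, e2 _ _ i hi, mul_zero, sum_const_zero]
  obtain ⟨v1, v2⟩ := vert h.sym H {w : L | ∀ a, ¬ In a → b.repr w a = 0} U hW e3 h.dfn
  refine ⟨fun a c e => by rw [← rho_toL]; exact v1 _ _ _, fun q hq x => ?_⟩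
  obtain ⟨y, hy⟩ := v2 x
  rw [hy]
  exact rho_lin_zero b In (q ∘ₗ U) hq (hW y)

theorem m1_zero {a c e : A} (hi : In a ∨ In c ∨ In e ∨ a = N ∨ c = N ∨ e = N) : m1 a c e = 0 := by
  by_contra h1
  have := (h.supp a c e h1).1
  tauto

theorem val0 {a c e : A} (hi : In a ∨ In c ∨ In e) : mu (b a) (b c) (b e) = m0 a c e := by
  rw [h.val, h.m1_zero (by tauto), if_neg]
  · simp
  · rintro ⟨rfl, rfl, rfl | rfl⟩
    · exact h.nI (by tauto)
    · exact h.sI (by tauto)

theorem t0 : t ≠ 0 := fun e => by simpa [e] using h.inf 0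

theorem t1 : 1 ≤ |t| := by simpa using (h.inf 1).le

theorem stdR [DecidablePred In] (a c i : A) (hi : In i) :
    StdLin (fun X : A × A → K => RR mu b (fun x y => if In x then X (x, y) else 0) a c i) := by
  refine StdLin_sum _ fun x _ => ?_
  by_cases hx : In x
  · simp only [hx, if_true, h.val0 (Or.inr (Or.inr hi)), h.val0 (Or.inr (Or.inr hx))]
    exact ((StdLin_coord _ _).add (StdLin_coord _ _)).add (StdLin_coord _ _)
  · simpa [hx] using StdLin_zero

/-- matrices with small rows, supported on the interior part -/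
theorem small {Z : A → A → K} {r : K} (hZ : ∀ x c, ¬ In x → Z x c = 0) (h1 : ∀ x c, Ob (Z x c) r)
    (a c e : A) : Ob (RR mu b Z a c e) r := by
  refine Ob_sum _ fun x _ => ?_
  by_cases hx : In x
  · rw [h.val0 (Or.inl hx), h.val0 (Or.inr (Or.inl hx)), h.val0 (Or.inr (Or.inr hx))]
    exact (((h1 _ _).mulr (Ob_rat _)).add ((h1 _ _).mulr (Ob_rat _))).add ((h1 _ _).mulr (Ob_rat _))
  · simpa [hZ x _ hx] using Ob_zero r

theorem vert_small [DecidablePred In] (m : A → A → K) (hm : ∀ x c, ¬ In x → m x c = 0) (r : K)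
    (hoff : ∀ a c i, In i → (a ≠ c ∨ In a) → Ob (RR mu b m a c i) r) (a c e : A) :
    Ob (RR mu b m a c e) r := by
  have em : (fun x y => if In x then m x y else 0) = m := by
    funext x y
    by_cases hx : In x
    · simp [hx]
    · simp [hx, hm x y hx]
  obtain ⟨y, hy1, hy2⟩ := rho_linb (J := {j : A × A × A // In j.2.2 ∧ (j.1 ≠ j.2.1 ∨ In j.1)})
    (fun j X => RR mu b (fun x y => if In x then X (x, y) else 0) j.1.1 j.1.2.1 j.1.2.2)
    (fun j => h.stdR _ _ _ j.2.1) (fun v => m v.1 v.2) r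
    (fun j => by simp only [em]; exact hoff _ _ _ j.2.1 j.2.2)
  have k1 := (h.ker (fun x c => if In x then y (x, c) else 0) (fun x c hx => if_neg hx)
    (fun a c i hi hac => hy1 ⟨(a, c, i), hi, hac⟩)).1 a c e
  have k2 := h.small (Z := fun x c => m x c - if In x then y (x, c) else 0) (r := r)
    (fun x c hx => by simp [hx, hm x c hx]) (fun x c => by
      by_cases hx : In x
      · simpa [hx] using hy2 (x, c)
      · simpa [hx, hm x c hx] using Ob_zero r) a c e
  refine k2.of_eq ?_
  refine ((sub_zero _).symm.trans (congrArg (RR mu b m a c e - ·) k1.symm)).trans ?_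
  simp only [RR, ← sum_sub_distrib]
  exact sum_congr rfl fun x _ => by ring

theorem p_small [DecidablePred In] (m : A → A → K) (hm : ∀ x c, ¬ In x → m x c = 0) (r : K)
    (p : L →ₗ[K] K) (p0 : A → ℚ) (hp0 : ∀ i, In i → p (b i) = p0 i)
    (hoff : ∀ a c i, In i → Ob (RR mu b m a c i) r)
    (hp : ∀ i, In i → Ob (∑ x, m x i * p (b x)) r) (c : A) : Ob (∑ x, m x c * p (b x)) r := by
  have em : (fun x y => if In x then m x y else 0) = m := by
    funext x y
    by_cases hx : In x
    · simp [hx]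
    · simp [hx, hm x y hx]
  obtain ⟨y, hy1, hy2⟩ := rho_linb (J := {j : A × A × A // In j.2.2} ⊕ {i : A // In i})
    (Sum.elim
      (fun j X => RR mu b (fun x y => if In x then X (x, y) else 0) j.1.1 j.1.2.1 j.1.2.2)
      (fun i X => ∑ x, (if In x then X (x, i.1) else 0) * p (b x)))
    (by
      rintro (j | i)
      · exact h.stdR _ _ _ j.2
      · refine StdLin_sum _ fun x _ => ?_
        by_cases hx : In x
        · simp only [hx, if_true, hp0 x hx]
          exact StdLin_coord _ _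
        · simpa [hx] using StdLin_zero)
    (fun v => m v.1 v.2) r
    (by
      rintro (j | i)
      · simp only [Sum.elim_inl, em]; exact hoff _ _ _ j.2
      · refine (hp i.1 i.2).of_eq (sum_congr rfl fun x _ => ?_)
        rw [congrFun (congrFun em x) i.1])
  have pl : ∀ (Y : A → A → K) c, p (toL b Y (b c)) = ∑ x, Y x c * p (b x) := fun Y c => by
    simp [toL_b]
  have k1 := (h.ker (fun x c => if In x then y (x, c) else 0) (fun x c hx => if_neg hx)
    (fun a c i hi _ => hy1 (Sum.inl ⟨(a, c, i), hi⟩))).2 p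
    (fun i hi => by rw [pl]; exact hy1 (Sum.inr ⟨i, hi⟩)) (b c)
  rw [pl] at k1
  have k2 : Ob (∑ x, (m x c - if In x then y (x, c) else 0) * p (b x)) r := by
    refine Ob_sum _ fun x _ => ?_
    by_cases hx : In x
    · rw [hp0 x hx, if_pos hx]
      exact (hy2 (x, c)).mulr (Ob_rat _)
    · simpa [hx, hm x c hx] using Ob_zero r
  refine k2.of_eq ?_
  refine ((sub_zero _).symm.trans (congrArg (∑ x, m x c * p (b x) - ·) k1.symm)).trans ?_
  simp only [← sum_sub_distrib]
  exact sum_congr rfl fun x _ => by ring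

theorem fin1 {x r : K} (hx : Ob x r) (hr : 0 ≤ r) : Ob x (|t| * r) :=
  hx.mono (le_mul_of_one_le_left hr h.t1)

/-- contraction of a column of `X` with the form: the three orders of magnitude -/
theorem col (X : A → K) (c e : A) :
    ∑ x, X x * mu (b x) (b c) (b e) = ∑ x, X x * (m0 x c e : K) + ∑ x, t * X x * (m1 x c e : K)
      + (if c = e ∧ (c = N ∨ c = S) then (κ : K) * (t * (t * X c)) else 0) := by
  simp only [h.val, mul_add, sum_add_distrib]
  congr 1
  · congr 1
    exact sum_congr rfl fun x _ => by ring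
  · rw [sum_eq_single c (fun x _ hx => by simp [hx]) (by simp)]
    by_cases hc : c = e ∧ (c = N ∨ c = S)
    · rw [if_pos ⟨rfl, hc⟩, if_pos hc]; ring
    · rw [if_neg (fun h1 => hc h1.2), if_neg hc]; ring

theorem RR_diag (X : A → A → K) (c e : A) :
    RR mu b X c e e = ∑ x, X x c * mu (b x) (b e) (b e) + 2 * ∑ x, X x e * mu (b x) (b c) (b e) := by
  rw [RR, mul_sum, ← sum_add_distrib]
  refine sum_congr rfl fun x _ => ?_
  rw [h.sym.2 (b c) (b e) (b x), h.sym.1 (b c) (b x) (b e)]
  ring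

/-- the rows outside the interior part are small -/
theorem rows (X : A → A → K) (r : K) (hr : 0 ≤ r) (hI : ∀ x c, In x → X x c = 0)
    (hX : ∀ x c, Ob (X x c) r)
    (h1 : ∀ c e, e ≠ S → Ob (RR mu b X c e e) r) (h2 : ∀ c, Ob (RR mu b X c S S) (|t| * r))
    (h3 : ∀ i, In i → Ob (RR mu b X i S S) r) :
    (∀ x c, Ob (t * X x c) r) ∧ ∀ i, In i → Ob (t * (t * X S i)) r := by
  have f0 : ∀ y c e, Ob (∑ x, X x y * (m0 x c e : K)) r := fun y c e =>
    Ob_sum _ fun x _ => (hX _ _).mulr (Ob_rat _)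
  have f1 : ∀ y c e, Ob (∑ x, t * X x y * (m1 x c e : K)) (|t| * r) := fun y c e =>
    Ob_sum _ fun x _ => ((Ob_self t).mul (hX _ _)).mulr (Ob_rat _)
  have pole : ∀ e, (e = N ∨ e = S) → (∀ c, Ob (RR mu b X c e e) (|t| * r)) →
      ∀ c, Ob (t * X e c) r := by
    intro e he hb c
    have g := hb c
    rw [h.RR_diag, h.col, h.col, if_pos ⟨rfl, he⟩] at g
    have g2 := (((g.sub (h.fin1 (f0 c e e) hr)).sub (f1 c e e)).sub
      ((Ob_rat 2).mull (h.fin1 (f0 e c e) hr))).sub ((Ob_rat 2).mull (f1 e c e))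
    by_cases hc : c = e
    · subst hc
      rw [if_pos ⟨rfl, he⟩] at g2
      refine Ob.cancel h.t0 (Ob.rat_cancel (q := 3 * κ) (mul_ne_zero (by norm_num) h.k0) ?_)
      exact g2.of_eq (by push_cast; ring)
    · rw [if_neg (fun h1 => hc h1.1)] at g2
      refine Ob.cancel h.t0 (Ob.rat_cancel h.k0 ?_)
      exact g2.of_eq (by push_cast; ring)
  have rN := pole N (Or.inl rfl) fun c => h.fin1 (h1 c N h.ns) hr
  have rS := pole S (Or.inr rfl) h2
  have rU : ∀ u, ¬ In u → u ≠ N → u ≠ S → ∀ c, Ob (t * X u c) r := by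
    intro u hu uN uS c
    have g := h1 c u uS
    rw [h.RR_diag, h.col, h.col, if_neg (by tauto), if_neg (by rintro ⟨rfl, h1⟩; tauto)] at g
    have s1 : ∑ x, t * X x c * (m1 x u u : K) = t * X u c * m1 u u u := by
      refine sum_eq_single u (fun x _ hx => ?_) (by simp)
      by_contra h1
      have := (h.supp x u u (fun h2 => h1 (by simp [h2]))).2
      tauto
    have g2 := (g.sub (f0 c u u)).sub ((Ob_rat 2).mull (f0 u c u))
    by_cases hc : c = u
    · subst hc
      rw [s1] at g2
      refine Ob.rat_cancel (q := 3 * m1 c c c) (mul_ne_zero (by norm_num) (h.fer c hu uN uS)) ?_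
      exact g2.of_eq (by push_cast; ring)
    · have s2 : ∑ x, t * X x u * (m1 x c u : K) = t * X S u * m1 S c u := by
        refine sum_eq_single S (fun x _ hx => ?_) (by simp)
        by_contra h1
        have := (h.supp x c u (fun h2 => h1 (by simp [h2]))).2
        tauto
      rw [s1, s2] at g2
      have g3 := g2.sub ((Ob_rat 2).mull ((rS u).mulr (Ob_rat (m1 S c u))))
      refine Ob.rat_cancel (h.fer u hu uN uS) ?_
      exact g3.of_eq (by push_cast; ring)
  have all : ∀ x c, Ob (t * X x c) r := by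
    intro x c
    by_cases hx : In x
    · simpa [hI x c hx] using Ob_zero r
    · by_cases xN : x = N
      · rw [xN]; exact rN c
      · by_cases xS : x = S
        · rw [xS]; exact rS c
        · exact rU x hx xN xS c
  refine ⟨all, fun i hi => ?_⟩
  have f2 : ∀ y c e, Ob (∑ x, t * X x y * (m1 x c e : K)) r := fun y c e =>
    Ob_sum _ fun x _ => (all _ _).mulr (Ob_rat _)
  have g := h3 i hi
  rw [h.RR_diag, h.col, h.col, if_pos ⟨rfl, Or.inr rfl⟩,
    if_neg (by rintro ⟨rfl, -⟩; exact h.sI hi)] at g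
  have g2 := (((g.sub (f0 i S S)).sub (f2 i S S)).sub
    ((Ob_rat 2).mull (f0 S i S))).sub ((Ob_rat 2).mull (f2 S i S))
  refine Ob.rat_cancel h.k0 ?_
  exact g2.of_eq (by push_cast; ring)

/-- the logarithmic derivative of the twist vanishes -/
theorem lam_zero (E : L →ₗ[K] L) (lam : K) (p : L →ₗ[K] K) (p0 : A → ℚ)
    (hE : ∀ a c e, rho mu E (b a) (b c) (b e) = lam * (t * m1 a c e
      + 2 * (t * t) * (if a = c ∧ c = e ∧ (a = N ∨ a = S) then (κ : K) else 0)))
    (hp0 : ∀ i, In i → p (b i) = p0 i) (hp1 : ∀ a, Ob (p (b a)) (|t| * |t|))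
    (hp2 : Ob (p (b N) - t * t * κ) |t|) (hE1 : p (E (b N)) = 2 * lam * (t * t) * κ)
    (hE2 : ∀ i, In i → p (E (b i)) = 0) : lam = 0 := by
  classical
  set Em : A → A → K := fun x c => b.repr (E (b c)) x with hEm
  set wt : A → ℚ := fun x => if In x then 0 else if x = N ∨ x = S then 2 / 3 else 1 / 3 with hwt
  set m : A → A → K := fun x c => if In x then Em x c else 0 with hm
  set X : A → A → K := fun x c =>
    if In x then 0 else Em x c - (if x = c then lam * wt x else 0) with hX
  have dec : ∀ x c, Em x c = X x c + m x c + (if x = c then lam * wt x else 0) := by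
    intro x c
    by_cases hx : In x
    · simp [hX, hm, hwt, hx]
    · simp [hX, hm, hx]
  have hm0 : ∀ x c, ¬ In x → m x c = 0 := fun x c hx => if_neg hx
  have hX0 : ∀ x c, In x → X x c = 0 := fun x c hx => if_pos hx
  have eR : ∀ a c e, RR mu b X a c e + RR mu b m a c e
      + lam * (wt a + wt c + wt e) * mu (b a) (b c) (b e) = lam * (t * m1 a c e
      + 2 * (t * t) * (if a = c ∧ c = e ∧ (a = N ∨ a = S) then (κ : K) else 0)) := by
    intro a c e
    rw [← hE, ← toL_repr b E, rho_toL]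
    change _ = RR mu b Em a c e
    simp only [RR, dec, add_mul, sum_add_distrib, ite_mul, zero_mul, sum_ite_eq', mem_univ, if_true]
    ring
  have eP : ∀ c, p (E (b c)) = ∑ x, X x c * p (b x) + ∑ x, m x c * p (b x)
      + lam * wt c * p (b c) := by
    intro c
    conv_lhs => rw [← b.sum_repr (E (b c))]
    rw [map_sum]
    simp only [map_smul, smul_eq_mul]
    change ∑ x, Em x c * p (b x) = _
    simp only [dec, add_mul, sum_add_distrib, ite_mul, zero_mul, sum_ite_eq', mem_univ, if_true]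
  set r : K := |lam| + ∑ x, ∑ c, |X x c| + ∑ i, (if In i then |t * X S i| else 0) with hr
  have n1 : 0 ≤ ∑ x, ∑ c, |X x c| := sum_nonneg fun _ _ => sum_nonneg fun _ _ => abs_nonneg _
  have n2 : 0 ≤ ∑ i, (if In i then |t * X S i| else 0) :=
    sum_nonneg fun i _ => by split_ifs; exacts [abs_nonneg _, le_rfl]
  have r0 : 0 ≤ r := by linarith [abs_nonneg lam]
  have b0 : Ob lam r := Ob_of_le (by linarith)
  have b1 : ∀ x c, Ob (X x c) r := fun x c => Ob_of_le (by
    have a1 : |X x c| ≤ ∑ c, |X x c| :=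
      single_le_sum (f := fun c => |X x c|) (fun _ _ => abs_nonneg _) (mem_univ c)
    have a2 : ∑ c, |X x c| ≤ ∑ x, ∑ c, |X x c| :=
      single_le_sum (f := fun x => ∑ c, |X x c|)
        (fun _ _ => sum_nonneg fun _ _ => abs_nonneg _) (mem_univ x)
    linarith [abs_nonneg lam])
  have b2 : ∀ i, In i → Ob (t * X S i) r := fun i hi => Ob_of_le (by
    have a1 := single_le_sum (f := fun i => if In i then |t * X S i| else 0)
      (fun i _ => by split_ifs; exacts [abs_nonneg _, le_rfl]) (mem_univ i)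
    simp only [hi, if_true] at a1
    linarith [abs_nonneg lam])
  have bw : ∀ a c e, Ob (lam * (wt a + wt c + wt e) * (m0 a c e : K)) r := fun a c e =>
    (b0.mulr (((Ob_rat _).add (Ob_rat _)).add (Ob_rat _))).mulr (Ob_rat _)
  have off : ∀ a c i, In i → (a ≠ c ∨ In a) → Ob (RR mu b m a c i) r := by
    intro a c i hi hac
    have e1 := eR a c i
    have hne : ∀ x, ¬ (a = c ∧ c = x ∧ (a = N ∨ a = S)) := by
      rintro x ⟨h1, -, h2⟩
      rcases hac with h3 | h3
      · exact h3 h1
      · rcases h2 with rfl | rfl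
        · exact h.nI h3
        · exact h.sI h3
    rw [h.m1_zero (by tauto), if_neg (hne i), h.val0 (Or.inr (Or.inr hi))] at e1
    have g : Ob (RR mu b X a c i) r := by
      refine Ob_sum _ fun x _ => ?_
      rw [h.val0 (Or.inr (Or.inr hi)), h.val0 (Or.inr (Or.inr hi)), h.val a c x, if_neg (hne x)]
      refine (((b1 _ _).mulr (Ob_rat _)).add ((b1 _ _).mulr (Ob_rat _))).add ?_
      by_cases h1 : m1 a c x = 0
      · exact ((b1 x i).mulr (Ob_rat (m0 a c x))).of_eq (by rw [h1]; push_cast; ring)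
      · have h2 := h.supp a c x h1
        have h3 : x = S := by
          have h4 : a ≠ c := by tauto
          rcases h2.2 with h5 | h5 | h5 | h5
          · exact absurd h5.1 h4
          · exact absurd (h5.1.trans h5.2.symm) h4
          · exact h5.2
          · exact h5.2
        subst h3
        exact (((b1 x i).mulr (Ob_rat (m0 a c x))).add
          ((b2 i hi).mulr (Ob_rat (m1 a c x)))).of_eq (by ring)
    exact (g.add (bw a c i)).neg.of_eq (by push_cast at e1; linear_combination e1)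
  have allm := h.vert_small m hm0 r off
  have eX : ∀ c e, RR mu b X c e e = lam * t * (m1 c e e * (1 - (wt c + wt e + wt e)) : ℚ)
      - lam * (wt c + wt e + wt e) * (m0 c e e : K) - RR mu b m c e e := by
    intro c e
    have e1 := eR c e e
    rw [h.val] at e1
    by_cases hc : c = e ∧ e = e ∧ (c = N ∨ c = S)
    · have hI : ¬ In c := by
        rcases hc.2.2 with h1 | h1
        · rw [h1]; exact h.nI
        · rw [h1]; exact h.sI
      have w1 : wt c = 2 / 3 := by simp only [hwt, hI, hc.2.2, if_true, if_false]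
      have w2 : wt e = 2 / 3 := hc.1 ▸ w1
      rw [if_pos hc, w1, w2] at e1
      rw [w1, w2]
      push_cast at e1 ⊢
      linear_combination e1
    · rw [if_neg hc] at e1
      push_cast
      linear_combination e1
  have z1 : ∀ c e, e ≠ S → m1 c e e * (1 - (wt c + wt e + wt e)) = 0 := by
    intro c e he
    by_cases h1 : m1 c e e = 0
    · rw [h1, zero_mul]
    · have h2 := h.supp c e e h1
      have h3 : c = e := by tauto
      have w : wt e = 1 / 3 := by
        have : ¬ (e = N ∨ e = S) := by tauto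
        simp only [hwt, h2.1.2.1, this, if_false]
      rw [h3, w]; norm_num
  obtain ⟨c1, c2⟩ := h.rows X r r0 hX0 b1
    (fun c e he => by
      rw [eX, z1 c e he]
      exact ((Ob_zero r).of_eq (by simp)).sub (bw c e e) |>.sub (allm c e e))
    (fun c => by
      rw [eX]
      refine Ob.sub (Ob.sub ?_ (h.fin1 (bw c S S) r0)) (h.fin1 (allm c S S) r0)
      exact (((Ob_self t).mul b0).of_eq (mul_comm lam t)).mulr (Ob_rat _))
    (fun i hi => by
      rw [eX, h.m1_zero (Or.inl hi)]
      exact ((Ob_zero r).of_eq (by simp)).sub (bw i S S) |>.sub (allm i S S))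
  have tp : 0 < |t| := abs_pos.2 h.t0
  have rl : r ≤ 2 * |lam| := by
    have g : Ob (∑ x, ∑ c, |t * X x c| + ∑ i, (if In i then |t * (t * X S i)| else 0)) r := by
      refine Ob.add (Ob_sum _ fun x _ => Ob_sum _ fun c _ => ?_) (Ob_sum _ fun i _ => ?_)
      · obtain ⟨n, hn⟩ := c1 x c
        exact ⟨n, by rwa [abs_abs]⟩
      · split_ifs with hi
        · obtain ⟨n, hn⟩ := c2 i hi
          exact ⟨n, by rwa [abs_abs]⟩
        · exact Ob_zero r
    obtain ⟨n, hn⟩ := g
    have e1 : |t| * r = |t| * |lam|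
        + (∑ x, ∑ c, |t * X x c| + ∑ i, (if In i then |t * (t * X S i)| else 0)) := by
      rw [hr, mul_add, mul_add, mul_sum, mul_sum, add_assoc]
      congr 2
      · refine sum_congr rfl fun x _ => ?_
        rw [mul_sum]
        exact sum_congr rfl fun c _ => (abs_mul _ _).symm
      · refine sum_congr rfl fun i _ => ?_
        split_ifs
        · exact (abs_mul _ _).symm
        · exact mul_zero _
    have e2 := (le_abs_self _).trans hn
    have e3 := h.inf (2 * n)
    push_cast at e3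
    have e4 : 2 * n * r ≤ |t| * r := mul_le_mul_of_nonneg_right e3.le r0
    exact le_of_mul_le_mul_left (by nlinarith) tp
  have pX : ∀ c, Ob (∑ x, X x c * p (b x)) (|t| * r) := fun c => Ob_sum _ fun x _ => by
    refine Ob.cancel h.t0 ((((c1 x c).mul (hp1 x)).of_eq (mul_assoc _ _ _).symm).mono ?_)
    exact le_of_eq (by ring)
  have pm := h.p_small m hm0 (|t| * r) p p0 hp0 (fun a c i _ => h.fin1 (allm a c i) r0)
    (fun i hi => by
      have e1 := eP i
      have w : wt i = 0 := if_pos hi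
      rw [hE2 i hi, w] at e1
      exact (pX i).neg.of_eq (by push_cast at e1; linear_combination -e1)) N
  have wN : wt N = 2 / 3 := by simp [hwt, h.nI]
  have e1 := eP N
  rw [hE1, wN] at e1
  have g : Ob (t * (t * lam)) (|t| * r) := by
    refine Ob.rat_cancel (q := 4 / 3 * κ) (mul_ne_zero (by norm_num) h.k0) ?_
    refine (((pX N).add pm).add ((hp2.mul b0).mulr (Ob_rat (2 / 3)))).of_eq ?_
    push_cast at e1 ⊢
    linear_combination e1
  obtain ⟨n, hn⟩ := Ob.cancel h.t0 g
  by_contra hl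
  have lp : 0 < |lam| := abs_pos.2 hl
  have e3 := h.inf (2 * n)
  push_cast at e3
  rw [abs_mul] at hn
  have e4 : (n : K) * r ≤ n * (2 * |lam|) := mul_le_mul_of_nonneg_left rl (Nat.cast_nonneg n)
  nlinarith

end R1

end Pool.Agent.P.MP_33ab4b_ag
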