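import Pool.Agent.P.MP_33ab4b_ag.Jc

/-! Orders of magnitude in an ordered field and rational linear systems. -/

set_option autoImplicit false

namespace Pool.Agent.P.MP_33ab4b_ag

open Finset

variable {K : Type*} [Field K] [LinearOrder K] [IsStrictOrderedRing K]

/-- `x` is at most a standard multiple of `r` -/
def Ob (x r : K) : Prop := ∃ n : ℕ, |x| ≤ n * r

theorem Ob_zero (r : K) : Ob 0 r := ⟨0, by simp⟩

theorem Ob_of_le {x r : K} (h : |x| ≤ r) : Ob x r := ⟨1, by simpa using h⟩

theorem Ob.add {x y r : K} (h : Ob x r) (h' : Ob y r) : Ob (x + y) r := by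
  obtain ⟨n, hn⟩ := h
  obtain ⟨m, hm⟩ := h'
  exact ⟨n + m, by push_cast; linarith [abs_add_le x y]⟩

theorem Ob.neg {x r : K} (h : Ob x r) : Ob (-x) r := by
  obtain ⟨n, hn⟩ := h
  exact ⟨n, by rwa [abs_neg]⟩

theorem Ob.sub {x y r : K} (h : Ob x r) (h' : Ob y r) : Ob (x - y) r := by
  rw [sub_eq_add_neg]; exact h.add h'.neg

theorem Ob.of_eq {x y r : K} (h : Ob x r) (e : y = x) : Ob y r := e ▸ h

theorem Ob_sum {ι : Type*} (s : Finset ι) {f : ι → K} {r : K} (h : ∀ i ∈ s, Ob (f i) r) :
    Ob (∑ i ∈ s, f i) r := by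
  classical
  induction s using Finset.induction_on with
  | empty => simpa using Ob_zero r
  | insert a s ha ih =>
    rw [sum_insert ha]
    exact (h a (mem_insert_self _ _)).add (ih fun i hi => h i (mem_insert_of_mem hi))

theorem Ob.mul {x y r s : K} (h : Ob x r) (h' : Ob y s) : Ob (x * y) (r * s) := by
  obtain ⟨n, hn⟩ := h
  obtain ⟨m, hm⟩ := h'
  refine ⟨n * m, ?_⟩
  rw [abs_mul]
  calc |x| * |y| ≤ (n * r) * (m * s) :=
        mul_le_mul hn hm (abs_nonneg _) ((abs_nonneg _).trans hn)
    _ = _ := by push_cast; ring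

theorem Ob.mulr {x y r : K} (h : Ob x r) (h' : Ob y 1) : Ob (x * y) r := by
  simpa using h.mul h'

theorem Ob.mull {x y r : K} (h : Ob x 1) (h' : Ob y r) : Ob (x * y) r := by
  simpa using h.mul h'

theorem Ob.mono {x r s : K} (h : Ob x r) (hrs : r ≤ s) : Ob x s := by
  obtain ⟨n, hn⟩ := h
  exact ⟨n, hn.trans (mul_le_mul_of_nonneg_left hrs (Nat.cast_nonneg n))⟩

theorem Ob_rat (q : ℚ) : Ob (q : K) 1 := by
  obtain ⟨n, hn⟩ := exists_nat_ge |q|
  refine ⟨n, ?_⟩
  rw [mul_one, ← Rat.cast_abs]
  exact_mod_cast hn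

theorem Ob_self (x : K) : Ob x |x| := Ob_of_le le_rfl

theorem Ob.rat_cancel {x r : K} {q : ℚ} (hq : q ≠ 0) (h : Ob ((q : K) * x) r) : Ob x r := by
  have h1 : (q : K) ≠ 0 := by exact_mod_cast hq
  refine ((Ob_rat (K := K) q⁻¹).mull h).of_eq ?_
  push_cast
  field_simp

theorem Ob.cancel {x r t : K} (ht : t ≠ 0) (h : Ob (t * x) (|t| * r)) : Ob x r := by
  obtain ⟨n, hn⟩ := h
  refine ⟨n, ?_⟩
  have h1 : 0 < |t| := abs_pos.2 ht
  rw [abs_mul] at hn
  exact le_of_mul_le_mul_left (by linarith) h1

/-- linear forms with rational coefficients -/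
def StdLin {V : Type*} [Fintype V] (φ : (V → K) → K) : Prop :=
  ∃ c : V → ℚ, ∀ x, φ x = ∑ v, (c v : K) * x v

section
variable {V : Type*} [Fintype V]

theorem StdLin_zero : StdLin (fun _ : V → K => (0 : K)) := ⟨0, fun x => by simp⟩

theorem StdLin_coord (v : V) (q : ℚ) : StdLin (fun x : V → K => x v * (q : K)) := by
  classical
  refine ⟨fun w => if w = v then q else 0, fun x => ?_⟩
  rw [sum_eq_single v (fun w _ hw => by simp [hw]) (by simp)]
  simp [mul_comm]

theorem StdLin.add {φ ψ : (V → K) → K} (h : StdLin φ) (h' : StdLin ψ) :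
    StdLin (fun x => φ x + ψ x) := by
  obtain ⟨c, hc⟩ := h
  obtain ⟨c', hc'⟩ := h'
  refine ⟨fun v => c v + c' v, fun x => ?_⟩
  simp only [hc, hc', ← sum_add_distrib]
  exact sum_congr rfl fun v _ => by push_cast; ring

theorem StdLin_sum {ι : Type*} (s : Finset ι) {φ : ι → (V → K) → K} (h : ∀ i ∈ s, StdLin (φ i)) :
    StdLin (fun x => ∑ i ∈ s, φ i x) := by
  classical
  induction s using Finset.induction_on with
  | empty => simpa using StdLin_zero
  | insert a s ha ih =>
    simp only [sum_insert ha]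
    exact (h a (mem_insert_self _ _)).add (ih fun i hi => h i (mem_insert_of_mem hi))

theorem StdLin_ite (P : Prop) [Decidable P] {φ : (V → K) → K} (h : P → StdLin φ) :
    StdLin (fun x => if P then φ x else 0) := by
  by_cases hP : P
  · simpa [hP] using h hP
  · simpa [hP] using StdLin_zero

theorem rho_ginv {J : Type*} [Fintype J] (c : Matrix J V ℚ) :
    ∃ g : Matrix V J ℚ, c * g * c = c := by
  classical
  set f := Matrix.toLin' c
  obtain ⟨s, hs⟩ := f.rangeRestrict.exists_rightInverse_of_surjective (LinearMap.range_rangeRestrict f)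
  obtain ⟨π, hπ⟩ := (LinearMap.range f).subtype.exists_leftInverse_of_injective
    (Submodule.ker_subtype _)
  refine ⟨LinearMap.toMatrix' (s ∘ₗ π), Matrix.toLin'.injective ?_⟩
  rw [Matrix.toLin'_mul, Matrix.toLin'_mul, Matrix.toLin'_toMatrix']
  refine LinearMap.ext fun x => ?_
  have h1 : π (f x) = f.rangeRestrict x := LinearMap.congr_fun hπ (f.rangeRestrict x)
  have h2 := congrArg Subtype.val (LinearMap.congr_fun hs (f.rangeRestrict x))
  simp only [LinearMap.comp_apply]
  change f (s (π (f x))) = f x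
  rw [h1]
  exact h2

/-- an approximate solution of a rational linear system is near an exact one -/
theorem rho_linb {J : Type*} [Fintype J] (φ : J → (V → K) → K) (hφ : ∀ j, StdLin (φ j))
    (x : V → K) (r : K) (h : ∀ j, Ob (φ j x) r) :
    ∃ y : V → K, (∀ j, φ j y = 0) ∧ ∀ v, Ob (x v - y v) r := by
  classical
  choose c hc using hφ
  obtain ⟨g, hg⟩ := rho_ginv (Matrix.of c)
  refine ⟨fun v => x v - ∑ j, (g v j : K) * φ j x, fun j => ?_, fun v => ?_⟩
  · have e : ∀ w, (c j w : K) = ∑ i, (∑ v, (c j v : K) * g v i) * c i w := fun w => by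
      have := congrFun (congrFun hg j) w
      simp only [Matrix.mul_apply, Matrix.of_apply] at this
      exact_mod_cast this.symm
    have e2 : φ j x = ∑ v, (c j v : K) * ∑ i, (g v i : K) * φ i x := by
      calc φ j x = ∑ w, (∑ i, (∑ v, (c j v : K) * g v i) * c i w) * x w := by
            rw [hc]; exact sum_congr rfl fun w _ => by rw [← e w]
        _ = ∑ i, (∑ v, (c j v : K) * g v i) * φ i x := by
            simp only [hc, sum_mul, mul_sum]
            rw [sum_comm]
            refine sum_congr rfl fun i _ => ?_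
            rw [sum_comm]
            rw [sum_comm]
            exact sum_congr rfl fun _ _ => sum_congr rfl fun _ _ => by ring
        _ = _ := by
            simp only [sum_mul, mul_sum]
            rw [sum_comm]
            exact sum_congr rfl fun _ _ => sum_congr rfl fun _ _ => by ring
    rw [hc]
    simp only [mul_sub, sum_sub_distrib]
    rw [← hc, ← e2, sub_self]
  · rw [sub_sub_cancel]
    exact Ob_sum _ fun j _ => (Ob_rat _).mull (h j)

end

end Pool.Agent.P.MP_33ab4b_ag
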